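import Pool.Agent.X9.AP.Basic

/-! # The five exceptions -/

namespace Pool.Agent.X9.AP

instance : DecidablePred Anti := fun n => by unfold Anti; infer_instance

/-- the antipalindromic numbers up to `421` -/
def S : List ℕ := 
  [1, 4, 6, 13, 21, 34, 40, 46, 60, 66, 72, 97, 121, 145, 177, 201, 225, 268, 286, 304, 346, 364,
  382]

theorem mem_S : ∀ A < 422, Anti A → A ∈ S := by decide +kernel

theorem S_one : ∀ e ∈ [24, 37, 49, 117, 421], e ∉ S := by decide +kernel

theorem S_two : ∀ e ∈ [24, 37, 49, 117, 421], ∀ A ∈ S, e - A ∉ S ∧ ∀ B ∈ S, e - A - B ∉ S := by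
  decide +kernel

theorem not_rep (N : ℕ) (h : N = 24 ∨ N = 37 ∨ N = 49 ∨ N = 117 ∨ N = 421) : ¬ Rep N := by
  have hN : N ∈ [24, 37, 49, 117, 421] := by simpa using h
  have hlt : N < 422 := by omega
  rintro (hA | ⟨A, B, hA, hB, rfl⟩ | ⟨A, B, C, hA, hB, hC, rfl⟩)
  · exact S_one N hN (mem_S N hlt hA)
  · have := (S_two _ hN A (mem_S A (by omega) hA)).1
    rw [Nat.add_sub_cancel_left] at this
    exact this (mem_S B (by omega) hB)
  · have := (S_two _ hN A (mem_S A (by omega) hA)).2 B (mem_S B (by omega) hB)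
    have e : A + B + C - A - B = C := by omega
    rw [e] at this
    exact this (mem_S C (by omega) hC)

end Pool.Agent.X9.AP
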