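import Pool.Agent.X9.AP.Base

/-! # All numbers below `3^14` (kernel computations with bit sets; generated file) -/

namespace Pool.Agent.X9.AP

theorem two_pow_sub_testBit {a b N : ℕ} (h1 : a ≤ N) (h2 : N < b) :
    ((2 ^ (b - a) - 1) <<< a).testBit N = true := by
  rw [Nat.testBit_shiftLeft, Nat.testBit_two_pow_sub_one]
  simp only [Bool.and_eq_true, decide_eq_true_eq]
  omega

/-- the numbers obtained from a list of triples of lengths (length `0`: the summand is absent) -/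
def pat : List (ℕ × ℕ × ℕ) → ℕ
  | [] => 0
  | (a, b, c) :: t => (if c = 0 then (if b = 0 then bsA a 1 else bsA a (bsA b 1))
      else bsA a (bsA b (bsA c 1))) ||| pat t

theorem pat_spec : ∀ l N, (pat l).testBit N = true → Rep N
  | [], N, h => by simp [pat] at h
  | (a, b, c) :: t, N, h => by
      simp only [pat, Nat.testBit_or, Bool.or_eq_true] at h
      rcases h with h | h
      · split_ifs at h
        · exact bs1_spec h
        · exact bs2_spec h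
        · exact bs3_spec h
      · exact pat_spec t N h

theorem range_of {l : List (ℕ × ℕ × ℕ)} {a b : ℕ}
    (h : (pat l &&& ((2 ^ (b - a) - 1) <<< a)) = (2 ^ (b - a) - 1) <<< a)
    (N : ℕ) (h1 : a ≤ N) (h2 : N < b) : Rep N := by
  apply pat_spec l
  have e := two_pow_sub_testBit h1 h2
  rw [← h, Nat.testBit_and, Bool.and_eq_true] at e
  exact e.1

theorem mask13 : (pat [(14, 10, 8), (13, 12, 10), (14, 12, 9), (14, 11, 9), (14, 11, 10), (13, 11, 8)] &&&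
    ((2 ^ (4782969 - 1594323) - 1) <<< 1594323)) = (2 ^ (4782969 - 1594323) - 1) <<< 1594323 := by
  decide +kernel

theorem range13 (N : ℕ) (h1 : 1594323 ≤ N) (h2 : N < 4782969) : Rep N := range_of mask13 N h1 h2

theorem mask12 : (pat [(13, 12, 10), (13, 10, 9), (13, 10, 8), (12, 11, 9), (12, 11, 10), (13, 11, 8), (13, 10, 6), (12, 12, 11), (13, 12, 12)] &&&
    ((2 ^ (1594323 - 531441) - 1) <<< 531441)) = (2 ^ (1594323 - 531441) - 1) <<< 531441 := by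
  decide +kernel

theorem range12 (N : ℕ) (h1 : 531441 ≤ N) (h2 : N < 1594323) : Rep N := range_of mask12 N h1 h2

theorem mask11 : (pat [(12, 11, 10), (12, 9, 8), (12, 8, 6), (11, 10, 8), (11, 10, 9), (11, 11, 10), (12, 8, 5), (12, 9, 7)] &&&
    ((2 ^ (531441 - 177147) - 1) <<< 177147)) = (2 ^ (531441 - 177147) - 1) <<< 177147 := by
  decide +kernel

theorem range11 (N : ℕ) (h1 : 177147 ≤ N) (h2 : N < 531441) : Rep N := range_of mask11 N h1 h2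

theorem mask10 : (pat [(11, 10, 8), (11, 10, 9), (11, 11, 10), (10, 10, 8), (10, 10, 9), (10, 9, 8), (10, 9, 9), (11, 10, 10), (11, 9, 6), (11, 8, 6), (11, 6, 6)] &&&
    ((2 ^ (177147 - 59049) - 1) <<< 59049)) = (2 ^ (177147 - 59049) - 1) <<< 59049 := by
  decide +kernel

theorem range10 (N : ℕ) (h1 : 59049 ≤ N) (h2 : N < 177147) : Rep N := range_of mask10 N h1 h2

theorem mask9 : (pat [(10, 9, 8), (10, 9, 9), (10, 8, 4), (9, 8, 7), (9, 8, 8), (10, 8, 7), (9, 8, 6), (9, 7, 6)] &&&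
    ((2 ^ (59049 - 19683) - 1) <<< 19683)) = (2 ^ (59049 - 19683) - 1) <<< 19683 := by
  decide +kernel

theorem range9 (N : ℕ) (h1 : 19683 ≤ N) (h2 : N < 59049) : Rep N := range_of mask9 N h1 h2

theorem mask0 : ((pat
    [(9, 8, 7), (9, 8, 8), (9, 8, 6), (9, 7, 6), (8, 8, 7), (8, 7, 5), (8, 7, 6), (8, 8, 6),
    (9, 6, 4), (9, 6, 6), (9, 7, 5), (8, 6, 5), (7, 7, 6), (7, 6, 6), (7, 6, 5), (7, 6, 4),
    (8, 6, 4), (7, 6, 2), (7, 5, 5), (7, 6, 3), (6, 6, 4), (6, 6, 5), (6, 5, 4), (6, 5, 5),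
    (6, 6, 6), (6, 6, 3), (7, 4, 4), (7, 5, 2), (7, 5, 3), (6, 4, 2), (6, 4, 3), (5, 4, 4),
    (5, 5, 4), (5, 4, 3), (5, 4, 0), (6, 4, 4), (6, 5, 2), (5, 5, 3), (5, 5, 2), (6, 3, 0),
    (6, 3, 2), (5, 5, 0), (6, 2, 2), (4, 4, 3), (4, 4, 2), (4, 4, 4), (5, 4, 2), (4, 3, 2),
    (4, 3, 1), (5, 3, 2), (5, 2, 2), (5, 1, 1), (5, 2, 0), (5, 3, 1), (4, 2, 0), (4, 2, 1),
    (3, 2, 2), (3, 3, 1), (3, 3, 0), (3, 3, 2), (4, 4, 1), (3, 2, 1), (3, 3, 3), (4, 1, 1),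
    (4, 2, 2), (2, 2, 1), (2, 2, 2), (3, 2, 0), (2, 2, 0), (3, 1, 0), (3, 1, 1), (2, 0, 0),
    (2, 1, 0), (1, 1, 1), (1, 0, 0), (1, 1, 0)]
    ||| (2 ^ 0 + 2 ^ 24 + 2 ^ 37 + 2 ^ 49 + 2 ^ 117 + 2 ^ 421)) &&& (2 ^ 19683 - 1)) = 2 ^ 19683 - 1 := by decide +kernel

theorem exc_testBit {N : ℕ} (h : (2 ^ 0 + 2 ^ 24 + 2 ^ 37 + 2 ^ 49 + 2 ^ 117 + 2 ^ 421).testBit N = true) :
    N = 0 ∨ N = 24 ∨ N = 37 ∨ N = 49 ∨ N = 117 ∨ N = 421 := by
  have e : ∀ N < 422, (2 ^ 0 + 2 ^ 24 + 2 ^ 37 + 2 ^ 49 + 2 ^ 117 + 2 ^ 421).testBit N = true →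
    N = 0 ∨ N = 24 ∨ N = 37 ∨ N = 49 ∨ N = 117 ∨ N = 421 := by decide +kernel
  by_cases hN : N < 422
  · exact e N hN h
  · rw [Nat.testBit_lt_two_pow] at h
    · exact absurd h (by simp)
    · calc (2 ^ 0 + 2 ^ 24 + 2 ^ 37 + 2 ^ 49 + 2 ^ 117 + 2 ^ 421) < 2 ^ 422 := by decide +kernel
        _ ≤ 2 ^ N := Nat.pow_le_pow_right (by norm_num) (by omega)

theorem range0 (N : ℕ) (h2 : N < 19683) (h0 : N ≠ 0) (he : N ≠ 24 ∧ N ≠ 37 ∧ N ≠ 49 ∧ N ≠ 117 ∧ N ≠ 421) :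
    Rep N := by
  have e : (2 ^ 19683 - 1).testBit N = true := by
    rw [Nat.testBit_two_pow_sub_one]
    simpa using h2
  rw [← mask0, Nat.testBit_and, Nat.testBit_or, Bool.and_eq_true, Bool.or_eq_true] at e
  rcases e.1 with h | h
  · exact pat_spec _ N h
  · have := exc_testBit h
    omega

theorem small (N : ℕ) (h2 : N < 3 ^ 14) (h0 : N ≠ 0)
    (he : N ≠ 24 ∧ N ≠ 37 ∧ N ≠ 49 ∧ N ≠ 117 ∧ N ≠ 421) : Rep N := by
  have e14 : 3 ^ 14 = 4782969 := by norm_num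
  rw [e14] at h2
  by_cases h9 : N < 19683
  · exact range0 N h9 h0 he
  by_cases h10 : N < 59049
  · exact range9 N (by omega) h10
  by_cases h11 : N < 177147
  · exact range10 N (by omega) h11
  by_cases h12 : N < 531441
  · exact range11 N (by omega) h12
  by_cases h13 : N < 1594323
  · exact range12 N (by omega) h13
  · exact range13 N (by omega) h2

end Pool.Agent.X9.AP
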