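import Pool.Agent.X9.AP.Basic

/-! # Base cases (kernel computations with bit sets) -/

namespace Pool.Agent.X9.AP

theorem four_pow (k : ℕ) : 4 ^ k % 3 = 1 := by
  rw [Nat.pow_mod]; norm_num

theorem alt_succ (k : ℕ) : (4 ^ (k + 1) - 1) / 3 = 4 * ((4 ^ k - 1) / 3) + 1 := by
  have h := four_pow k
  rw [pow_succ]
  omega

theorem alt_testBit : ∀ k i, i < k → ((4 ^ k - 1) / 3).testBit (2 * i) = true
  | 0, i, h => by omega
  | k + 1, 0, _ => by
      rw [alt_succ, mul_zero, Nat.testBit_zero]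
      simp; omega
  | k + 1, i + 1, h => by
      have e : 2 * (i + 1) = 2 * i + 1 + 1 := by ring
      rw [alt_succ, e, Nat.testBit_succ, Nat.testBit_succ]
      have : (4 * ((4 ^ k - 1) / 3) + 1) / 2 / 2 = (4 ^ k - 1) / 3 := by omega
      rw [this]
      exact alt_testBit k i (by omega)

theorem base_of {a b c lo k : ℕ}
    (h : (bsR a b c &&& (((4 ^ k - 1) / 3) <<< lo)) = ((4 ^ k - 1) / 3) <<< lo)
    (N : ℕ) (h1 : lo ≤ N) (h2 : N % 2 = lo % 2) (h3 : N < lo + 2 * k) : R a b c N := by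
  apply bsR_spec
  have e : (((4 ^ k - 1) / 3) <<< lo).testBit N = true := by
    rw [Nat.testBit_shiftLeft]
    have e2 : N - lo = 2 * ((N - lo) / 2) := by omega
    rw [e2, alt_testBit k _ (by omega)]
    simpa using h1
  rw [← h, Nat.testBit_and, Bool.and_eq_true] at e
  exact e.1

theorem R_step' {a b c N N' u v w u' v' w' x y z : ℕ} (h : R a b c N') (hu : u + u' = 2)
    (hv : v + v' = 2) (hw : w + w' = 2) (hx : 3 ^ (a + 1) = x) (hy : 3 ^ (b + 1) = y)
    (hz : 3 ^ (c + 1) = z) (hN : N = u + v + w + 3 * N' + u' * x + v' * y + w' * z) :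
    R (a + 2) (b + 2) (c + 2) N := by
  have := R_step h u v w (by omega) (by omega) (by omega)
  rw [hN, ← hx, ← hy, ← hz]
  have e1 : 2 - u = u' := by omega
  have e2 : 2 - v = v' := by omega
  have e3 : 2 - w = w' := by omega
  rwa [e1, e2, e3] at this

theorem Rep_step' {a b c N N' u v w u' v' w' x y z : ℕ} (h : R a b c N') (hu : u + u' = 2)
    (hv : v + v' = 2) (hw : w + w' = 2) (hx : 3 ^ (a + 1) = x) (hy : 3 ^ (b + 1) = y)
    (hz : 3 ^ (c + 1) = z) (hN : N = u + v + w + 3 * N' + u' * x + v' * y + w' * z)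
    (hu1 : u ≤ 1) (hv1 : v ≤ 1) (hw1 : w ≤ 1) : Rep N := by
  have := Rep_step h u v w hu1 hv1 hw1
  rw [hN, ← hx, ← hy, ← hz]
  have e1 : 2 - u = u' := by omega
  have e2 : 2 - v = v' := by omega
  have e3 : 2 - w = w' := by omega
  rwa [e1, e2, e3] at this

theorem p12_mask0 : (bsR 12 11 10 &&& (((4 ^ 318209 - 1) / 3) <<< 65611)) =
    ((4 ^ 318209 - 1) / 3) <<< 65611 := by decide +kernel

theorem p12_base0 (N : ℕ) (h : N % 2 = 1) (hlo : 590490 ≤ 9 * N) (hhi : 9 * N ≤ 6318243) :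
    R 12 11 10 N :=
  base_of p12_mask0 N (by omega) (by omega) (by omega)

theorem p12_mask1 : (bsR 13 12 11 &&& (((4 ^ 954626 - 1) / 3) <<< 196830)) =
    ((4 ^ 954626 - 1) / 3) <<< 196830 := by decide +kernel

theorem p12_base1 (N : ℕ) (h : N % 2 = 0) (hlo : 1771470 ≤ 9 * N) (hhi : 9 * N ≤ 18954729) :
    R 13 12 11 N :=
  base_of p12_mask1 N (by omega) (by omega) (by omega)

theorem p13_mask0 : (bsR 12 11 9 &&& (((4 ^ 337892 - 1) / 3) <<< 26244)) =
    ((4 ^ 337892 - 1) / 3) <<< 26244 := by decide +kernel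

theorem p13_base0 (N : ℕ) (h : N % 2 = 0) (hlo : 78732 ≤ 3 * N) (hhi : 3 * N ≤ 2106081) :
    R 12 11 9 N :=
  base_of p13_mask0 N (by omega) (by omega) (by omega)

theorem p13_mask1 : (bsR 13 12 10 &&& (((4 ^ 1013675 - 1) / 3) <<< 78733)) =
    ((4 ^ 1013675 - 1) / 3) <<< 78733 := by decide +kernel

theorem p13_base1 (N : ℕ) (h : N % 2 = 1) (hlo : 236196 ≤ 3 * N) (hhi : 3 * N ≤ 6318243) :
    R 13 12 10 N :=
  base_of p13_mask1 N (by omega) (by omega) (by omega)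

theorem p23_mask0 : (bsR 12 10 9 &&& (((4 ^ 283946 - 1) / 3) <<< 21141)) =
    ((4 ^ 283946 - 1) / 3) <<< 21141 := by decide +kernel

theorem p23_base0 (N : ℕ) (h : N % 2 = 1) (hlo : 570807 ≤ 27 * N) (hhi : 27 * N ≤ 15903864) :
    R 12 10 9 N :=
  base_of p23_mask0 N (by omega) (by omega) (by omega)

theorem p23_mask1 : (bsR 13 11 10 &&& (((4 ^ 851837 - 1) / 3) <<< 63424)) =
    ((4 ^ 851837 - 1) / 3) <<< 63424 := by decide +kernel

theorem p23_base1 (N : ℕ) (h : N % 2 = 0) (hlo : 1712421 ≤ 27 * N) (hhi : 27 * N ≤ 47711592) :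
    R 13 11 10 N :=
  base_of p23_mask1 N (by omega) (by omega) (by omega)

theorem p35_mask0 : (bsR 12 9 7 &&& (((4 ^ 262441 - 1) / 3) <<< 13122)) =
    ((4 ^ 262441 - 1) / 3) <<< 13122 := by decide +kernel

theorem p35_base0 (N : ℕ) (h : N % 2 = 0) (hlo : 13122 ≤ 1 * N) (hhi : 1 * N ≤ 538002) :
    R 12 9 7 N :=
  base_of p35_mask0 N (by omega) (by omega) (by omega)

theorem p35_mask1 : (bsR 13 10 8 &&& (((4 ^ 787320 - 1) / 3) <<< 39367)) =
    ((4 ^ 787320 - 1) / 3) <<< 39367 := by decide +kernel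

theorem p35_base1 (N : ℕ) (h : N % 2 = 1) (hlo : 39366 ≤ 1 * N) (hhi : 1 * N ≤ 1614006) :
    R 13 10 8 N :=
  base_of p35_mask1 N (by omega) (by omega) (by omega)

end Pool.Agent.X9.AP
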