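import Mathlib

/-!
# Antipalindromic digit strings in base 3

`E L m`: `m` is the value of a string of `L` ternary digits (leading zeros allowed) which is mapped
to itself by reversal followed by `d ↦ 2 - d`.  `Anti n`: `n` is an antipalindromic number.
-/

namespace Pool.Agent.X9.AP

/-- `n` is antipalindromic in base `3`: it is positive and its digits satisfy
`u_i + u_(k-i) = 2` for all `0 ≤ i ≤ k`, where `k + 1` is the number of digits. -/
def Anti (n : ℕ) : Prop :=
  0 < n ∧ ∀ i < (Nat.digits 3 n).length,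
    (Nat.digits 3 n).getD i 0 + (Nat.digits 3 n).getD ((Nat.digits 3 n).length - 1 - i) 0 = 2

/-- The value `m` of an antipalindromic string of length `L`, leading zeros allowed. -/
def E (L m : ℕ) : Prop :=
  ∃ l : List ℕ, l.length = L ∧ (∀ d ∈ l, d < 3) ∧
    (∀ i < l.length, l.getD i 0 + l.getD (l.length - 1 - i) 0 = 2) ∧ Nat.ofDigits 3 l = m

theorem E_zero : E 0 0 := ⟨[], by simp⟩

theorem E_one : E 1 1 := ⟨[1], by simp⟩

theorem step_list {l : List ℕ} (h2 : ∀ i < l.length, l.getD i 0 + l.getD (l.length - 1 - i) 0 = 2)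
    {u : ℕ} (hu : u ≤ 2) :
    ∀ i < (u :: (l ++ [2 - u])).length, (u :: (l ++ [2 - u])).getD i 0 +
      (u :: (l ++ [2 - u])).getD ((u :: (l ++ [2 - u])).length - 1 - i) 0 = 2 := by
  intro i hi
  have hlen : (u :: (l ++ [2 - u])).length = l.length + 2 := by simp
  rw [hlen] at hi ⊢
  rcases Nat.eq_zero_or_pos i with rfl | hpos
  · have e1 : l.length + 2 - 1 - 0 = l.length + 1 := by omega
    rw [e1, List.getD_cons_succ, List.getD_cons_zero]
    rw [List.getD_append_right _ _ _ _ (le_refl _)]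
    simp; omega
  · obtain ⟨j, rfl⟩ : ∃ j, i = j + 1 := ⟨i - 1, by omega⟩
    rw [List.getD_cons_succ]
    by_cases hj : j < l.length
    · have e1 : l.length + 2 - 1 - (j + 1) = (l.length - 1 - j) + 1 := by omega
      rw [e1, List.getD_cons_succ, List.getD_append _ _ _ _ hj,
        List.getD_append _ _ _ _ (by omega)]
      exact h2 j hj
    · have hj' : j = l.length := by omega
      subst hj'
      have e1 : l.length + 2 - 1 - (l.length + 1) = 0 := by omega
      rw [e1, List.getD_cons_zero, List.getD_append_right _ _ _ _ (le_refl _)]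
      simp; omega

theorem E_step {L e u : ℕ} (h : E L e) (hu : u ≤ 2) :
    E (L + 2) (u + 3 * e + (2 - u) * 3 ^ (L + 1)) := by
  obtain ⟨l, h0, h1, h2, h3⟩ := h
  refine ⟨u :: (l ++ [2 - u]), by simp [h0], ?_, step_list h2 hu, ?_⟩
  · intro d hd
    simp only [List.mem_cons, List.mem_append, List.not_mem_nil, or_false] at hd
    rcases hd with rfl | hd | rfl
    · omega
    · exact h1 d hd
    · omega
  · rw [Nat.ofDigits_cons, Nat.ofDigits_append, h3, h0]
    simp
    ring

theorem Anti_step {L e u : ℕ} (h : E L e) (hu : u ≤ 1) :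
    Anti (u + 3 * e + (2 - u) * 3 ^ (L + 1)) := by
  obtain ⟨l, h0, h1, h2, h3⟩ := h
  have hval : Nat.ofDigits 3 (u :: (l ++ [2 - u])) = u + 3 * e + (2 - u) * 3 ^ (L + 1) := by
    rw [Nat.ofDigits_cons, Nat.ofDigits_append, h3, h0]
    simp
    ring
  have hdig : Nat.digits 3 (u + 3 * e + (2 - u) * 3 ^ (L + 1)) = u :: (l ++ [2 - u]) := by
    rw [← hval]
    apply Nat.digits_ofDigits 3 (by norm_num)
    · intro d hd
      simp only [List.mem_cons, List.mem_append, List.not_mem_nil, or_false] at hd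
      rcases hd with rfl | hd | rfl
      · omega
      · exact h1 d hd
      · omega
    · intro _
      rw [List.getLast_cons (by simp), List.getLast_append_singleton]
      omega
  refine ⟨?_, ?_⟩
  · have : 0 < 3 ^ (L + 1) := by positivity
    have : 0 < (2 - u) * 3 ^ (L + 1) := Nat.mul_pos (by omega) this
    omega
  · rw [hdig]
    exact step_list h2 (by omega)

theorem Anti_one : Anti 1 := by
  refine ⟨by norm_num, ?_⟩
  intro i hi
  simp at hi
  subst hi
  simp

/-! ## Bit sets -/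

/-- all `x + 3^j m` with `x ∈ X` and `m` the value of an antipalindromic string of length `L`. -/
def bsE : ℕ → ℕ → ℕ → ℕ
  | 0, _, X => X
  | 1, j, X => X <<< (3 ^ j)
  | L + 2, j, X => bsE L (j + 1)
      ((X <<< (2 * 3 ^ (L + 1 + j))) ||| ((X <<< (3 ^ j + 3 ^ (L + 1 + j))) ||| (X <<< (2 * 3 ^ j))))

theorem bsE_spec : ∀ L j X i, (bsE L j X).testBit i = true →
    ∃ x m, X.testBit x = true ∧ E L m ∧ i = x + 3 ^ j * m
  | 0, j, X, i, h => ⟨i, 0, h, E_zero, by simp⟩
  | 1, j, X, i, h => by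
      simp only [bsE, Nat.testBit_shiftLeft, Bool.and_eq_true, decide_eq_true_eq] at h
      exact ⟨i - 3 ^ j, 1, h.2, E_one, by omega⟩
  | L + 2, j, X, i, h => by
      obtain ⟨x, m, hx, hm, hi⟩ := bsE_spec L (j + 1) _ i h
      simp only [Nat.testBit_or, Nat.testBit_shiftLeft, Bool.or_eq_true, Bool.and_eq_true,
        decide_eq_true_eq] at hx
      rcases hx with hx | hx | hx
      · refine ⟨_, _, hx.2, E_step (u := 0) hm (by norm_num), ?_⟩
        have h1 := hx.1
        obtain ⟨y, rfl⟩ := Nat.exists_eq_add_of_le h1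
        rw [hi, Nat.add_sub_cancel_left]
        ring
      · refine ⟨_, _, hx.2, E_step (u := 1) hm (by norm_num), ?_⟩
        have h1 := hx.1
        obtain ⟨y, rfl⟩ := Nat.exists_eq_add_of_le h1
        rw [hi, Nat.add_sub_cancel_left]
        ring
      · refine ⟨_, _, hx.2, E_step (u := 2) hm (by norm_num), ?_⟩
        have h1 := hx.1
        obtain ⟨y, rfl⟩ := Nat.exists_eq_add_of_le h1
        rw [hi, Nat.add_sub_cancel_left]
        ring

/-- all `x + m` with `x ∈ X` and `m` an antipalindromic number with `L` digits. -/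
def bsA : ℕ → ℕ → ℕ
  | 0, _ => 0
  | 1, X => X <<< 1
  | L + 2, X => bsE L 1 ((X <<< (2 * 3 ^ (L + 1))) ||| (X <<< (1 + 3 ^ (L + 1))))

theorem bsA_spec : ∀ L X i, (bsA L X).testBit i = true →
    ∃ x m, X.testBit x = true ∧ Anti m ∧ i = x + m
  | 0, X, i, h => by simp [bsA] at h
  | 1, X, i, h => by
      simp only [bsA, Nat.testBit_shiftLeft, Bool.and_eq_true, decide_eq_true_eq] at h
      exact ⟨i - 1, 1, h.2, Anti_one, by omega⟩
  | L + 2, X, i, h => by
      obtain ⟨x, m, hx, hm, hi⟩ := bsE_spec L 1 _ i h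
      simp only [Nat.testBit_or, Nat.testBit_shiftLeft, Bool.or_eq_true, Bool.and_eq_true,
        decide_eq_true_eq] at hx
      rcases hx with hx | hx
      · refine ⟨_, _, hx.2, Anti_step (u := 0) hm (by norm_num), ?_⟩
        have h1 := hx.1
        obtain ⟨y, rfl⟩ := Nat.exists_eq_add_of_le h1
        rw [hi, Nat.add_sub_cancel_left]
        ring
      · refine ⟨_, _, hx.2, Anti_step (u := 1) hm (by norm_num), ?_⟩
        have h1 := hx.1
        obtain ⟨y, rfl⟩ := Nat.exists_eq_add_of_le h1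
        rw [hi, Nat.add_sub_cancel_left]
        ring

/-- `N` is the sum of three values of antipalindromic strings of lengths `a`, `b`, `c`. -/
def R (a b c N : ℕ) : Prop := ∃ A B C, E a A ∧ E b B ∧ E c C ∧ N = A + B + C

/-- `N` is the sum of at most three antipalindromic numbers. -/
def Rep (N : ℕ) : Prop :=
  Anti N ∨ (∃ A B, Anti A ∧ Anti B ∧ N = A + B) ∨
    ∃ A B C, Anti A ∧ Anti B ∧ Anti C ∧ N = A + B + C

theorem R_step {a b c N' : ℕ} (h : R a b c N') (u v w : ℕ) (hu : u ≤ 2) (hv : v ≤ 2) (hw : w ≤ 2) :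
    R (a + 2) (b + 2) (c + 2) (u + v + w + 3 * N' + (2 - u) * 3 ^ (a + 1) +
      (2 - v) * 3 ^ (b + 1) + (2 - w) * 3 ^ (c + 1)) := by
  obtain ⟨A, B, C, hA, hB, hC, rfl⟩ := h
  exact ⟨_, _, _, E_step hA hu, E_step hB hv, E_step hC hw, by ring⟩

theorem Rep_step {a b c N' : ℕ} (h : R a b c N') (u v w : ℕ) (hu : u ≤ 1) (hv : v ≤ 1)
    (hw : w ≤ 1) :
    Rep (u + v + w + 3 * N' + (2 - u) * 3 ^ (a + 1) +
      (2 - v) * 3 ^ (b + 1) + (2 - w) * 3 ^ (c + 1)) := by
  obtain ⟨A, B, C, hA, hB, hC, rfl⟩ := h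
  exact Or.inr (Or.inr ⟨_, _, _, Anti_step hA hu, Anti_step hB hv, Anti_step hC hw, by ring⟩)

/-- the set of all values of `R a b c` as a bit set. -/
def bsR (a b c : ℕ) : ℕ := bsE a 0 (bsE b 0 (bsE c 0 1))

theorem bsR_spec {a b c N : ℕ} (h : (bsR a b c).testBit N = true) : R a b c N := by
  obtain ⟨x, A, hx, hA, rfl⟩ := bsE_spec _ _ _ _ h
  obtain ⟨y, B, hy, hB, rfl⟩ := bsE_spec _ _ _ _ hx
  obtain ⟨z, C, hz, hC, rfl⟩ := bsE_spec _ _ _ _ hy
  have hz0 : z = 0 := by
    by_contra hne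
    rw [Nat.testBit_lt_two_pow (Nat.one_lt_two_pow hne)] at hz
    exact absurd hz (by simp)
  subst hz0
  exact ⟨A, B, C, hA, hB, hC, by simp; ring⟩

theorem bs3_spec {a b c N : ℕ} (h : (bsA a (bsA b (bsA c 1))).testBit N = true) : Rep N := by
  obtain ⟨x, A, hx, hA, rfl⟩ := bsA_spec _ _ _ h
  obtain ⟨y, B, hy, hB, rfl⟩ := bsA_spec _ _ _ hx
  obtain ⟨z, C, hz, hC, rfl⟩ := bsA_spec _ _ _ hy
  have hz0 : z = 0 := by
    by_contra hne
    rw [Nat.testBit_lt_two_pow (Nat.one_lt_two_pow hne)] at hz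
    exact absurd hz (by simp)
  subst hz0
  exact Or.inr (Or.inr ⟨A, B, C, hA, hB, hC, by ring⟩)

theorem bs2_spec {a b N : ℕ} (h : (bsA a (bsA b 1)).testBit N = true) : Rep N := by
  obtain ⟨x, A, hx, hA, rfl⟩ := bsA_spec _ _ _ h
  obtain ⟨y, B, hy, hB, rfl⟩ := bsA_spec _ _ _ hx
  have hz0 : y = 0 := by
    by_contra hne
    rw [Nat.testBit_lt_two_pow (Nat.one_lt_two_pow hne)] at hy
    exact absurd hy (by simp)
  subst hz0
  exact Or.inr (Or.inl ⟨A, B, hA, hB, by ring⟩)

theorem bs1_spec {a N : ℕ} (h : (bsA a 1).testBit N = true) : Rep N := by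
  obtain ⟨x, A, hx, hA, rfl⟩ := bsA_spec _ _ _ h
  have hz0 : x = 0 := by
    by_contra hne
    rw [Nat.testBit_lt_two_pow (Nat.one_lt_two_pow hne)] at hx
    exact absurd hx (by simp)
  subst hz0
  exact Or.inl (by simpa using hA)

end Pool.Agent.X9.AP
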