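import Pool.Agent.X9.AP.Base

/-! # The four families of lengths (generated file) -/

namespace Pool.Agent.X9.AP

theorem p12 : ∀ K, 10 ≤ K → ∀ N, N % 2 = (K + 1) % 2 → 10 * 3 ^ K ≤ 9 * N →
    9 * N ≤ 107 * 3 ^ K → R (K + 2) (K + 1) K N := by
  intro K
  induction K using Nat.strong_induction_on with
  | _ K ih =>
  intro hK N hpar hlo hhi
  rcases (by omega : K = 10 ∨ K = 11 ∨ 12 ≤ K) with rfl | rfl | hK2
  · exact p12_base0 N (by omega) (by norm_num at hlo ⊢; omega) (by norm_num at hhi ⊢; omega)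
  · exact p12_base1 N (by omega) (by norm_num at hlo ⊢; omega) (by norm_num at hhi ⊢; omega)
  obtain ⟨J, rfl⟩ : ∃ J, K = J + 2 := ⟨K - 2, by omega⟩
  have hJ : 10 ≤ J := by omega
  have IH := ih J (by omega) hJ
  clear ih hK hK2
  obtain ⟨P, hP⟩ : ∃ P, P = 3 ^ J := ⟨_, rfl⟩
  have hPge : 2187 ≤ P := by
    rw [hP]
    calc 2187 = 3 ^ 7 := by norm_num
      _ ≤ 3 ^ J := Nat.pow_le_pow_right (by norm_num) (by omega)
  have hodd : P % 2 = 1 := by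
    rw [hP, Nat.pow_mod]; norm_num
  have ex : 3 ^ (J + 2 + 1) = 27 * P := by rw [hP]; ring
  have ey : 3 ^ (J + 1 + 1) = 9 * P := by rw [hP]; ring
  have ez : 3 ^ (J + 1) = 3 * P := by rw [hP]; ring
  have e9 : 3 ^ (J + 2) = 9 * P := by rw [hP]; ring
  rw [e9] at hlo hhi
  rw [← hP] at IH
  have h3 : N % 3 = 0 ∨ N % 3 = 1 ∨ N % 3 = 2 := by omega
  rcases h3 with h3 | h3 | h3
  · by_cases hc0 : 1 * N < 30 * P
    · obtain ⟨M, hM⟩ : ∃ M, N = 2 + 2 + 2 + 3 * M + 0 * (27 * P) + 0 * (9 * P) + 0 * (3 * P) :=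
        ⟨(N - (6 + 0 * P)) / 3, by omega⟩
      exact R_step' (IH M (by omega) (by omega) (by omega)) (u := 2) (v := 2) (w := 2) (u' := 0) (v' := 0) (w' := 0)
        rfl rfl rfl ex ey ez hM
    by_cases hc1 : 2 * N < 105 * P
    · obtain ⟨M, hM⟩ : ∃ M, N = 2 + 0 + 1 + 3 * M + 0 * (27 * P) + 2 * (9 * P) + 1 * (3 * P) :=
        ⟨(N - (3 + 21 * P)) / 3, by omega⟩
      exact R_step' (IH M (by omega) (by omega) (by omega)) (u := 2) (v := 0) (w := 1) (u' := 0) (v' := 2) (w' := 1)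
        rfl rfl rfl ex ey ez hM
    by_cases hc2 : 2 * N < 147 * P
    · obtain ⟨M, hM⟩ : ∃ M, N = 1 + 0 + 2 + 3 * M + 1 * (27 * P) + 2 * (9 * P) + 0 * (3 * P) :=
        ⟨(N - (3 + 45 * P)) / 3, by omega⟩
      exact R_step' (IH M (by omega) (by omega) (by omega)) (u := 1) (v := 0) (w := 2) (u' := 1) (v' := 2) (w' := 0)
        rfl rfl rfl ex ey ez hM
    by_cases hc3 : 1 * N < 90 * P
    · obtain ⟨M, hM⟩ : ∃ M, N = 0 + 1 + 2 + 3 * M + 2 * (27 * P) + 1 * (9 * P) + 0 * (3 * P) :=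
        ⟨(N - (3 + 63 * P)) / 3, by omega⟩
      exact R_step' (IH M (by omega) (by omega) (by omega)) (u := 0) (v := 1) (w := 2) (u' := 2) (v' := 1) (w' := 0)
        rfl rfl rfl ex ey ez hM
    obtain ⟨M, hM⟩ : ∃ M, N = 0 + 0 + 0 + 3 * M + 2 * (27 * P) + 2 * (9 * P) + 2 * (3 * P) :=
      ⟨(N - (0 + 78 * P)) / 3, by omega⟩
    exact R_step' (IH M (by omega) (by omega) (by omega)) (u := 0) (v := 0) (w := 0) (u' := 2) (v' := 2) (w' := 2)
      rfl rfl rfl ex ey ez hM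
  · by_cases hc0 : 2 * N < 81 * P
    · obtain ⟨M, hM⟩ : ∃ M, N = 2 + 2 + 0 + 3 * M + 0 * (27 * P) + 0 * (9 * P) + 2 * (3 * P) :=
        ⟨(N - (4 + 6 * P)) / 3, by omega⟩
      exact R_step' (IH M (by omega) (by omega) (by omega)) (u := 2) (v := 2) (w := 0) (u' := 0) (v' := 0) (w' := 2)
        rfl rfl rfl ex ey ez hM
    by_cases hc1 : 2 * N < 129 * P
    · obtain ⟨M, hM⟩ : ∃ M, N = 1 + 1 + 2 + 3 * M + 1 * (27 * P) + 1 * (9 * P) + 0 * (3 * P) :=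
        ⟨(N - (4 + 36 * P)) / 3, by omega⟩
      exact R_step' (IH M (by omega) (by omega) (by omega)) (u := 1) (v := 1) (w := 2) (u' := 1) (v' := 1) (w' := 0)
        rfl rfl rfl ex ey ez hM
    by_cases hc2 : 1 * N < 84 * P
    · obtain ⟨M, hM⟩ : ∃ M, N = 0 + 2 + 2 + 3 * M + 2 * (27 * P) + 0 * (9 * P) + 0 * (3 * P) :=
        ⟨(N - (4 + 54 * P)) / 3, by omega⟩
      exact R_step' (IH M (by omega) (by omega) (by omega)) (u := 0) (v := 2) (w := 2) (u' := 2) (v' := 0) (w' := 0)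
        rfl rfl rfl ex ey ez hM
    obtain ⟨M, hM⟩ : ∃ M, N = 0 + 0 + 1 + 3 * M + 2 * (27 * P) + 2 * (9 * P) + 1 * (3 * P) :=
      ⟨(N - (1 + 75 * P)) / 3, by omega⟩
    exact R_step' (IH M (by omega) (by omega) (by omega)) (u := 0) (v := 0) (w := 1) (u' := 2) (v' := 2) (w' := 1)
      rfl rfl rfl ex ey ez hM
  · by_cases hc0 : 2 * N < 69 * P
    · obtain ⟨M, hM⟩ : ∃ M, N = 2 + 2 + 1 + 3 * M + 0 * (27 * P) + 0 * (9 * P) + 1 * (3 * P) :=
        ⟨(N - (5 + 3 * P)) / 3, by omega⟩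
      exact R_step' (IH M (by omega) (by omega) (by omega)) (u := 2) (v := 2) (w := 1) (u' := 0) (v' := 0) (w' := 1)
        rfl rfl rfl ex ey ez hM
    by_cases hc1 : 1 * N < 57 * P
    · obtain ⟨M, hM⟩ : ∃ M, N = 1 + 2 + 2 + 3 * M + 1 * (27 * P) + 0 * (9 * P) + 0 * (3 * P) :=
        ⟨(N - (5 + 27 * P)) / 3, by omega⟩
      exact R_step' (IH M (by omega) (by omega) (by omega)) (u := 1) (v := 2) (w := 2) (u' := 1) (v' := 0) (w' := 0)
        rfl rfl rfl ex ey ez hM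
    by_cases hc2 : 2 * N < 159 * P
    · obtain ⟨M, hM⟩ : ∃ M, N = 1 + 0 + 1 + 3 * M + 1 * (27 * P) + 2 * (9 * P) + 1 * (3 * P) :=
        ⟨(N - (2 + 48 * P)) / 3, by omega⟩
      exact R_step' (IH M (by omega) (by omega) (by omega)) (u := 1) (v := 0) (w := 1) (u' := 1) (v' := 2) (w' := 1)
        rfl rfl rfl ex ey ez hM
    obtain ⟨M, hM⟩ : ∃ M, N = 0 + 0 + 2 + 3 * M + 2 * (27 * P) + 2 * (9 * P) + 0 * (3 * P) :=
      ⟨(N - (2 + 72 * P)) / 3, by omega⟩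
    exact R_step' (IH M (by omega) (by omega) (by omega)) (u := 0) (v := 0) (w := 2) (u' := 2) (v' := 2) (w' := 0)
      rfl rfl rfl ex ey ez hM

theorem p13 : ∀ K, 9 ≤ K → ∀ N, N % 2 = (K + 1) % 2 → 4 * 3 ^ K ≤ 3 * N →
    3 * N ≤ 107 * 3 ^ K → R (K + 3) (K + 2) K N := by
  intro K
  induction K using Nat.strong_induction_on with
  | _ K ih =>
  intro hK N hpar hlo hhi
  rcases (by omega : K = 9 ∨ K = 10 ∨ 11 ≤ K) with rfl | rfl | hK2
  · exact p13_base0 N (by omega) (by norm_num at hlo ⊢; omega) (by norm_num at hhi ⊢; omega)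
  · exact p13_base1 N (by omega) (by norm_num at hlo ⊢; omega) (by norm_num at hhi ⊢; omega)
  obtain ⟨J, rfl⟩ : ∃ J, K = J + 2 := ⟨K - 2, by omega⟩
  have hJ : 9 ≤ J := by omega
  have IH := ih J (by omega) hJ
  clear ih hK hK2
  obtain ⟨P, hP⟩ : ∃ P, P = 3 ^ J := ⟨_, rfl⟩
  have hPge : 2187 ≤ P := by
    rw [hP]
    calc 2187 = 3 ^ 7 := by norm_num
      _ ≤ 3 ^ J := Nat.pow_le_pow_right (by norm_num) (by omega)
  have hodd : P % 2 = 1 := by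
    rw [hP, Nat.pow_mod]; norm_num
  have ex : 3 ^ (J + 3 + 1) = 81 * P := by rw [hP]; ring
  have ey : 3 ^ (J + 2 + 1) = 27 * P := by rw [hP]; ring
  have ez : 3 ^ (J + 1) = 3 * P := by rw [hP]; ring
  have e9 : 3 ^ (J + 2) = 9 * P := by rw [hP]; ring
  rw [e9] at hlo hhi
  rw [← hP] at IH
  have h3 : N % 3 = 0 ∨ N % 3 = 1 ∨ N % 3 = 2 := by omega
  rcases h3 with h3 | h3 | h3
  · by_cases hc0 : 1 * N < 99 * P
    · obtain ⟨M, hM⟩ : ∃ M, N = 2 + 2 + 2 + 3 * M + 0 * (81 * P) + 0 * (27 * P) + 0 * (3 * P) :=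
        ⟨(N - (6 + 0 * P)) / 3, by omega⟩
      exact R_step' (IH M (by omega) (by omega) (by omega)) (u := 2) (v := 2) (w := 2) (u' := 0) (v' := 0) (w' := 0)
        rfl rfl rfl ex ey ez hM
    by_cases hc1 : 2 * N < 387 * P
    · obtain ⟨M, hM⟩ : ∃ M, N = 1 + 2 + 0 + 3 * M + 1 * (81 * P) + 0 * (27 * P) + 2 * (3 * P) :=
        ⟨(N - (3 + 87 * P)) / 3, by omega⟩
      exact R_step' (IH M (by omega) (by omega) (by omega)) (u := 1) (v := 2) (w := 0) (u' := 1) (v' := 0) (w' := 2)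
        rfl rfl rfl ex ey ez hM
    by_cases hc2 : 1 * N < 261 * P
    · obtain ⟨M, hM⟩ : ∃ M, N = 0 + 1 + 2 + 3 * M + 2 * (81 * P) + 1 * (27 * P) + 0 * (3 * P) :=
        ⟨(N - (3 + 189 * P)) / 3, by omega⟩
      exact R_step' (IH M (by omega) (by omega) (by omega)) (u := 0) (v := 1) (w := 2) (u' := 2) (v' := 1) (w' := 0)
        rfl rfl rfl ex ey ez hM
    obtain ⟨M, hM⟩ : ∃ M, N = 0 + 0 + 0 + 3 * M + 2 * (81 * P) + 2 * (27 * P) + 2 * (3 * P) :=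
      ⟨(N - (0 + 222 * P)) / 3, by omega⟩
    exact R_step' (IH M (by omega) (by omega) (by omega)) (u := 0) (v := 0) (w := 0) (u' := 2) (v' := 2) (w' := 2)
      rfl rfl rfl ex ey ez hM
  · by_cases hc0 : 2 * N < 225 * P
    · obtain ⟨M, hM⟩ : ∃ M, N = 2 + 2 + 0 + 3 * M + 0 * (81 * P) + 0 * (27 * P) + 2 * (3 * P) :=
        ⟨(N - (4 + 6 * P)) / 3, by omega⟩
      exact R_step' (IH M (by omega) (by omega) (by omega)) (u := 2) (v := 2) (w := 0) (u' := 0) (v' := 0) (w' := 2)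
        rfl rfl rfl ex ey ez hM
    by_cases hc1 : 1 * N < 207 * P
    · obtain ⟨M, hM⟩ : ∃ M, N = 1 + 1 + 2 + 3 * M + 1 * (81 * P) + 1 * (27 * P) + 0 * (3 * P) :=
        ⟨(N - (4 + 108 * P)) / 3, by omega⟩
      exact R_step' (IH M (by omega) (by omega) (by omega)) (u := 1) (v := 1) (w := 2) (u' := 1) (v' := 1) (w' := 0)
        rfl rfl rfl ex ey ez hM
    by_cases hc2 : 2 * N < 525 * P
    · obtain ⟨M, hM⟩ : ∃ M, N = 0 + 1 + 0 + 3 * M + 2 * (81 * P) + 1 * (27 * P) + 2 * (3 * P) :=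
        ⟨(N - (1 + 195 * P)) / 3, by omega⟩
      exact R_step' (IH M (by omega) (by omega) (by omega)) (u := 0) (v := 1) (w := 0) (u' := 2) (v' := 1) (w' := 2)
        rfl rfl rfl ex ey ez hM
    obtain ⟨M, hM⟩ : ∃ M, N = 0 + 0 + 1 + 3 * M + 2 * (81 * P) + 2 * (27 * P) + 1 * (3 * P) :=
      ⟨(N - (1 + 219 * P)) / 3, by omega⟩
    exact R_step' (IH M (by omega) (by omega) (by omega)) (u := 0) (v := 0) (w := 1) (u' := 2) (v' := 2) (w' := 1)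
      rfl rfl rfl ex ey ez hM
  · by_cases hc0 : 2 * N < 195 * P
    · obtain ⟨M, hM⟩ : ∃ M, N = 2 + 2 + 1 + 3 * M + 0 * (81 * P) + 0 * (27 * P) + 1 * (3 * P) :=
        ⟨(N - (5 + 3 * P)) / 3, by omega⟩
      exact R_step' (IH M (by omega) (by omega) (by omega)) (u := 2) (v := 2) (w := 1) (u' := 0) (v' := 0) (w' := 1)
        rfl rfl rfl ex ey ez hM
    by_cases hc1 : 1 * N < 180 * P
    · obtain ⟨M, hM⟩ : ∃ M, N = 1 + 2 + 2 + 3 * M + 1 * (81 * P) + 0 * (27 * P) + 0 * (3 * P) :=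
        ⟨(N - (5 + 81 * P)) / 3, by omega⟩
      exact R_step' (IH M (by omega) (by omega) (by omega)) (u := 1) (v := 2) (w := 2) (u' := 1) (v' := 0) (w' := 0)
        rfl rfl rfl ex ey ez hM
    by_cases hc2 : 2 * N < 495 * P
    · obtain ⟨M, hM⟩ : ∃ M, N = 0 + 2 + 0 + 3 * M + 2 * (81 * P) + 0 * (27 * P) + 2 * (3 * P) :=
        ⟨(N - (2 + 168 * P)) / 3, by omega⟩
      exact R_step' (IH M (by omega) (by omega) (by omega)) (u := 0) (v := 2) (w := 0) (u' := 2) (v' := 0) (w' := 2)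
        rfl rfl rfl ex ey ez hM
    obtain ⟨M, hM⟩ : ∃ M, N = 0 + 0 + 2 + 3 * M + 2 * (81 * P) + 2 * (27 * P) + 0 * (3 * P) :=
      ⟨(N - (2 + 216 * P)) / 3, by omega⟩
    exact R_step' (IH M (by omega) (by omega) (by omega)) (u := 0) (v := 0) (w := 2) (u' := 2) (v' := 2) (w' := 0)
      rfl rfl rfl ex ey ez hM

theorem p23 : ∀ K, 9 ≤ K → ∀ N, N % 2 = (K + 0) % 2 → 29 * 3 ^ K ≤ 27 * N →
    27 * N ≤ 808 * 3 ^ K → R (K + 3) (K + 1) K N := by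
  intro K
  induction K using Nat.strong_induction_on with
  | _ K ih =>
  intro hK N hpar hlo hhi
  rcases (by omega : K = 9 ∨ K = 10 ∨ 11 ≤ K) with rfl | rfl | hK2
  · exact p23_base0 N (by omega) (by norm_num at hlo ⊢; omega) (by norm_num at hhi ⊢; omega)
  · exact p23_base1 N (by omega) (by norm_num at hlo ⊢; omega) (by norm_num at hhi ⊢; omega)
  obtain ⟨J, rfl⟩ : ∃ J, K = J + 2 := ⟨K - 2, by omega⟩
  have hJ : 9 ≤ J := by omega
  have IH := ih J (by omega) hJ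
  clear ih hK hK2
  obtain ⟨P, hP⟩ : ∃ P, P = 3 ^ J := ⟨_, rfl⟩
  have hPge : 2187 ≤ P := by
    rw [hP]
    calc 2187 = 3 ^ 7 := by norm_num
      _ ≤ 3 ^ J := Nat.pow_le_pow_right (by norm_num) (by omega)
  have hodd : P % 2 = 1 := by
    rw [hP, Nat.pow_mod]; norm_num
  have ex : 3 ^ (J + 3 + 1) = 81 * P := by rw [hP]; ring
  have ey : 3 ^ (J + 1 + 1) = 9 * P := by rw [hP]; ring
  have ez : 3 ^ (J + 1) = 3 * P := by rw [hP]; ring
  have e9 : 3 ^ (J + 2) = 9 * P := by rw [hP]; ring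
  rw [e9] at hlo hhi
  rw [← hP] at IH
  have h3 : N % 3 = 0 ∨ N % 3 = 1 ∨ N % 3 = 2 := by omega
  rcases h3 with h3 | h3 | h3
  · by_cases hc0 : 1 * N < 57 * P
    · obtain ⟨M, hM⟩ : ∃ M, N = 2 + 2 + 2 + 3 * M + 0 * (81 * P) + 0 * (9 * P) + 0 * (3 * P) :=
        ⟨(N - (6 + 0 * P)) / 3, by omega⟩
      exact R_step' (IH M (by omega) (by omega) (by omega)) (u := 2) (v := 2) (w := 2) (u' := 0) (v' := 0) (w' := 0)
        rfl rfl rfl ex ey ez hM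
    by_cases hc1 : 2 * N < 213 * P
    · obtain ⟨M, hM⟩ : ∃ M, N = 2 + 0 + 1 + 3 * M + 0 * (81 * P) + 2 * (9 * P) + 1 * (3 * P) :=
        ⟨(N - (3 + 21 * P)) / 3, by omega⟩
      exact R_step' (IH M (by omega) (by omega) (by omega)) (u := 2) (v := 0) (w := 1) (u' := 0) (v' := 2) (w' := 1)
        rfl rfl rfl ex ey ez hM
    by_cases hc2 : 2 * N < 363 * P
    · obtain ⟨M, hM⟩ : ∃ M, N = 1 + 0 + 2 + 3 * M + 1 * (81 * P) + 2 * (9 * P) + 0 * (3 * P) :=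
        ⟨(N - (3 + 99 * P)) / 3, by omega⟩
      exact R_step' (IH M (by omega) (by omega) (by omega)) (u := 1) (v := 0) (w := 2) (u' := 1) (v' := 2) (w' := 0)
        rfl rfl rfl ex ey ez hM
    by_cases hc3 : 1 * N < 225 * P
    · obtain ⟨M, hM⟩ : ∃ M, N = 0 + 1 + 2 + 3 * M + 2 * (81 * P) + 1 * (9 * P) + 0 * (3 * P) :=
        ⟨(N - (3 + 171 * P)) / 3, by omega⟩
      exact R_step' (IH M (by omega) (by omega) (by omega)) (u := 0) (v := 1) (w := 2) (u' := 2) (v' := 1) (w' := 0)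
        rfl rfl rfl ex ey ez hM
    obtain ⟨M, hM⟩ : ∃ M, N = 0 + 0 + 0 + 3 * M + 2 * (81 * P) + 2 * (9 * P) + 2 * (3 * P) :=
      ⟨(N - (0 + 186 * P)) / 3, by omega⟩
    exact R_step' (IH M (by omega) (by omega) (by omega)) (u := 0) (v := 0) (w := 0) (u' := 2) (v' := 2) (w' := 2)
      rfl rfl rfl ex ey ez hM
  · by_cases hc0 : 2 * N < 189 * P
    · obtain ⟨M, hM⟩ : ∃ M, N = 2 + 2 + 0 + 3 * M + 0 * (81 * P) + 0 * (9 * P) + 2 * (3 * P) :=
        ⟨(N - (4 + 6 * P)) / 3, by omega⟩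
      exact R_step' (IH M (by omega) (by omega) (by omega)) (u := 2) (v := 2) (w := 0) (u' := 0) (v' := 0) (w' := 2)
        rfl rfl rfl ex ey ez hM
    by_cases hc1 : 2 * N < 345 * P
    · obtain ⟨M, hM⟩ : ∃ M, N = 1 + 1 + 2 + 3 * M + 1 * (81 * P) + 1 * (9 * P) + 0 * (3 * P) :=
        ⟨(N - (4 + 90 * P)) / 3, by omega⟩
      exact R_step' (IH M (by omega) (by omega) (by omega)) (u := 1) (v := 1) (w := 2) (u' := 1) (v' := 1) (w' := 0)
        rfl rfl rfl ex ey ez hM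
    by_cases hc2 : 1 * N < 219 * P
    · obtain ⟨M, hM⟩ : ∃ M, N = 0 + 2 + 2 + 3 * M + 2 * (81 * P) + 0 * (9 * P) + 0 * (3 * P) :=
        ⟨(N - (4 + 162 * P)) / 3, by omega⟩
      exact R_step' (IH M (by omega) (by omega) (by omega)) (u := 0) (v := 2) (w := 2) (u' := 2) (v' := 0) (w' := 0)
        rfl rfl rfl ex ey ez hM
    obtain ⟨M, hM⟩ : ∃ M, N = 0 + 0 + 1 + 3 * M + 2 * (81 * P) + 2 * (9 * P) + 1 * (3 * P) :=
      ⟨(N - (1 + 183 * P)) / 3, by omega⟩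
    exact R_step' (IH M (by omega) (by omega) (by omega)) (u := 0) (v := 0) (w := 1) (u' := 2) (v' := 2) (w' := 1)
      rfl rfl rfl ex ey ez hM
  · by_cases hc0 : 2 * N < 177 * P
    · obtain ⟨M, hM⟩ : ∃ M, N = 2 + 2 + 1 + 3 * M + 0 * (81 * P) + 0 * (9 * P) + 1 * (3 * P) :=
        ⟨(N - (5 + 3 * P)) / 3, by omega⟩
      exact R_step' (IH M (by omega) (by omega) (by omega)) (u := 2) (v := 2) (w := 1) (u' := 0) (v' := 0) (w' := 1)
        rfl rfl rfl ex ey ez hM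
    by_cases hc1 : 1 * N < 138 * P
    · obtain ⟨M, hM⟩ : ∃ M, N = 1 + 2 + 2 + 3 * M + 1 * (81 * P) + 0 * (9 * P) + 0 * (3 * P) :=
        ⟨(N - (5 + 81 * P)) / 3, by omega⟩
      exact R_step' (IH M (by omega) (by omega) (by omega)) (u := 1) (v := 2) (w := 2) (u' := 1) (v' := 0) (w' := 0)
        rfl rfl rfl ex ey ez hM
    by_cases hc2 : 2 * N < 375 * P
    · obtain ⟨M, hM⟩ : ∃ M, N = 1 + 0 + 1 + 3 * M + 1 * (81 * P) + 2 * (9 * P) + 1 * (3 * P) :=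
        ⟨(N - (2 + 102 * P)) / 3, by omega⟩
      exact R_step' (IH M (by omega) (by omega) (by omega)) (u := 1) (v := 0) (w := 1) (u' := 1) (v' := 2) (w' := 1)
        rfl rfl rfl ex ey ez hM
    obtain ⟨M, hM⟩ : ∃ M, N = 0 + 0 + 2 + 3 * M + 2 * (81 * P) + 2 * (9 * P) + 0 * (3 * P) :=
      ⟨(N - (2 + 180 * P)) / 3, by omega⟩
    exact R_step' (IH M (by omega) (by omega) (by omega)) (u := 0) (v := 0) (w := 2) (u' := 2) (v' := 2) (w' := 0)
      rfl rfl rfl ex ey ez hM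

theorem p35 : ∀ K, 7 ≤ K → ∀ N, N % 2 = (K + 1) % 2 → 6 * 3 ^ K ≤ 1 * N →
    1 * N ≤ 246 * 3 ^ K → R (K + 5) (K + 2) K N := by
  intro K
  induction K using Nat.strong_induction_on with
  | _ K ih =>
  intro hK N hpar hlo hhi
  rcases (by omega : K = 7 ∨ K = 8 ∨ 9 ≤ K) with rfl | rfl | hK2
  · exact p35_base0 N (by omega) (by norm_num at hlo ⊢; omega) (by norm_num at hhi ⊢; omega)
  · exact p35_base1 N (by omega) (by norm_num at hlo ⊢; omega) (by norm_num at hhi ⊢; omega)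
  obtain ⟨J, rfl⟩ : ∃ J, K = J + 2 := ⟨K - 2, by omega⟩
  have hJ : 7 ≤ J := by omega
  have IH := ih J (by omega) hJ
  clear ih hK hK2
  obtain ⟨P, hP⟩ : ∃ P, P = 3 ^ J := ⟨_, rfl⟩
  have hPge : 2187 ≤ P := by
    rw [hP]
    calc 2187 = 3 ^ 7 := by norm_num
      _ ≤ 3 ^ J := Nat.pow_le_pow_right (by norm_num) (by omega)
  have hodd : P % 2 = 1 := by
    rw [hP, Nat.pow_mod]; norm_num
  have ex : 3 ^ (J + 5 + 1) = 729 * P := by rw [hP]; ring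
  have ey : 3 ^ (J + 2 + 1) = 27 * P := by rw [hP]; ring
  have ez : 3 ^ (J + 1) = 3 * P := by rw [hP]; ring
  have e9 : 3 ^ (J + 2) = 9 * P := by rw [hP]; ring
  rw [e9] at hlo hhi
  rw [← hP] at IH
  have h3 : N % 3 = 0 ∨ N % 3 = 1 ∨ N % 3 = 2 := by omega
  rcases h3 with h3 | h3 | h3
  · by_cases hc0 : 1 * N < 762 * P
    · obtain ⟨M, hM⟩ : ∃ M, N = 2 + 1 + 0 + 3 * M + 0 * (729 * P) + 1 * (27 * P) + 2 * (3 * P) :=
        ⟨(N - (3 + 33 * P)) / 3, by omega⟩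
      exact R_step' (IH M (by omega) (by omega) (by omega)) (u := 2) (v := 1) (w := 0) (u' := 0) (v' := 1) (w' := 2)
        rfl rfl rfl ex ey ez hM
    by_cases hc1 : 1 * N < 1137 * P
    · obtain ⟨M, hM⟩ : ∃ M, N = 1 + 2 + 0 + 3 * M + 1 * (729 * P) + 0 * (27 * P) + 2 * (3 * P) :=
        ⟨(N - (3 + 735 * P)) / 3, by omega⟩
      exact R_step' (IH M (by omega) (by omega) (by omega)) (u := 1) (v := 2) (w := 0) (u' := 1) (v' := 0) (w' := 2)
        rfl rfl rfl ex ey ez hM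
    by_cases hc2 : 1 * N < 1512 * P
    · obtain ⟨M, hM⟩ : ∃ M, N = 1 + 0 + 2 + 3 * M + 1 * (729 * P) + 2 * (27 * P) + 0 * (3 * P) :=
        ⟨(N - (3 + 783 * P)) / 3, by omega⟩
      exact R_step' (IH M (by omega) (by omega) (by omega)) (u := 1) (v := 0) (w := 2) (u' := 1) (v' := 2) (w' := 0)
        rfl rfl rfl ex ey ez hM
    obtain ⟨M, hM⟩ : ∃ M, N = 0 + 1 + 2 + 3 * M + 2 * (729 * P) + 1 * (27 * P) + 0 * (3 * P) :=
      ⟨(N - (3 + 1485 * P)) / 3, by omega⟩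
    exact R_step' (IH M (by omega) (by omega) (by omega)) (u := 0) (v := 1) (w := 2) (u' := 2) (v' := 1) (w' := 0)
      rfl rfl rfl ex ey ez hM
  · by_cases hc0 : 1 * N < 759 * P
    · obtain ⟨M, hM⟩ : ∃ M, N = 2 + 1 + 1 + 3 * M + 0 * (729 * P) + 1 * (27 * P) + 1 * (3 * P) :=
        ⟨(N - (4 + 30 * P)) / 3, by omega⟩
      exact R_step' (IH M (by omega) (by omega) (by omega)) (u := 2) (v := 1) (w := 1) (u' := 0) (v' := 1) (w' := 1)
        rfl rfl rfl ex ey ez hM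
    by_cases hc1 : 2 * N < 2277 * P
    · obtain ⟨M, hM⟩ : ∃ M, N = 1 + 2 + 1 + 3 * M + 1 * (729 * P) + 0 * (27 * P) + 1 * (3 * P) :=
        ⟨(N - (4 + 732 * P)) / 3, by omega⟩
      exact R_step' (IH M (by omega) (by omega) (by omega)) (u := 1) (v := 2) (w := 1) (u' := 1) (v' := 0) (w' := 1)
        rfl rfl rfl ex ey ez hM
    by_cases hc2 : 1 * N < 1518 * P
    · obtain ⟨M, hM⟩ : ∃ M, N = 1 + 0 + 0 + 3 * M + 1 * (729 * P) + 2 * (27 * P) + 2 * (3 * P) :=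
        ⟨(N - (1 + 789 * P)) / 3, by omega⟩
      exact R_step' (IH M (by omega) (by omega) (by omega)) (u := 1) (v := 0) (w := 0) (u' := 1) (v' := 2) (w' := 2)
        rfl rfl rfl ex ey ez hM
    obtain ⟨M, hM⟩ : ∃ M, N = 0 + 1 + 0 + 3 * M + 2 * (729 * P) + 1 * (27 * P) + 2 * (3 * P) :=
      ⟨(N - (1 + 1491 * P)) / 3, by omega⟩
    exact R_step' (IH M (by omega) (by omega) (by omega)) (u := 0) (v := 1) (w := 0) (u' := 2) (v' := 1) (w' := 2)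
      rfl rfl rfl ex ey ez hM
  · by_cases hc0 : 1 * N < 756 * P
    · obtain ⟨M, hM⟩ : ∃ M, N = 2 + 1 + 2 + 3 * M + 0 * (729 * P) + 1 * (27 * P) + 0 * (3 * P) :=
        ⟨(N - (5 + 27 * P)) / 3, by omega⟩
      exact R_step' (IH M (by omega) (by omega) (by omega)) (u := 2) (v := 1) (w := 2) (u' := 0) (v' := 1) (w' := 0)
        rfl rfl rfl ex ey ez hM
    by_cases hc1 : 2 * N < 2271 * P
    · obtain ⟨M, hM⟩ : ∃ M, N = 1 + 2 + 2 + 3 * M + 1 * (729 * P) + 0 * (27 * P) + 0 * (3 * P) :=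
        ⟨(N - (5 + 729 * P)) / 3, by omega⟩
      exact R_step' (IH M (by omega) (by omega) (by omega)) (u := 1) (v := 2) (w := 2) (u' := 1) (v' := 0) (w' := 0)
        rfl rfl rfl ex ey ez hM
    by_cases hc2 : 1 * N < 1515 * P
    · obtain ⟨M, hM⟩ : ∃ M, N = 1 + 0 + 1 + 3 * M + 1 * (729 * P) + 2 * (27 * P) + 1 * (3 * P) :=
        ⟨(N - (2 + 786 * P)) / 3, by omega⟩
      exact R_step' (IH M (by omega) (by omega) (by omega)) (u := 1) (v := 0) (w := 1) (u' := 1) (v' := 2) (w' := 1)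
        rfl rfl rfl ex ey ez hM
    obtain ⟨M, hM⟩ : ∃ M, N = 0 + 1 + 1 + 3 * M + 2 * (729 * P) + 1 * (27 * P) + 1 * (3 * P) :=
      ⟨(N - (2 + 1488 * P)) / 3, by omega⟩
    exact R_step' (IH M (by omega) (by omega) (by omega)) (u := 0) (v := 1) (w := 1) (u' := 2) (v' := 1) (w' := 1)
      rfl rfl rfl ex ey ez hM

end Pool.Agent.X9.AP
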