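import Pool.Agent.X9.AP.Inner

/-! # All numbers from `3^14` on (generated file) -/

namespace Pool.Agent.X9.AP

theorem large (N : ℕ) (hN : 3 ^ 14 ≤ N) : Rep N := by
  obtain ⟨m, hm8, hlo, hhi⟩ : ∃ m, 8 ≤ m ∧ 3 ^ (m + 6) ≤ N ∧ N < 3 ^ (m + 7) := by
    have h14 : 14 ≤ Nat.log 3 N := (Nat.le_log_iff_pow_le (by norm_num) (by
      have : 0 < 3 ^ 14 := by norm_num
      omega)).2 hN
    refine ⟨Nat.log 3 N - 6, by omega, ?_, ?_⟩
    · have e : Nat.log 3 N - 6 + 6 = Nat.log 3 N := by omega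
      rw [e]
      exact Nat.pow_log_le_self 3 (by
        have : 0 < 3 ^ 14 := by norm_num
        omega)
    · have e : Nat.log 3 N - 6 + 7 = (Nat.log 3 N).succ := by omega
      rw [e]
      exact Nat.lt_pow_succ_log_self (by norm_num) N
  clear hN
  obtain ⟨Q, hQ⟩ : ∃ Q, Q = 3 ^ m := ⟨_, rfl⟩
  have hQge : 6561 ≤ Q := by
    rw [hQ]
    calc 6561 = 3 ^ 8 := by norm_num
      _ ≤ 3 ^ m := Nat.pow_le_pow_right (by norm_num) hm8
  have hodd : Q % 2 = 1 := by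
    rw [hQ, Nat.pow_mod]; norm_num
  have e1 : 3 ^ (m + 1) = 3 * Q := by rw [hQ]; ring
  have e2 : 3 ^ (m + 2) = 9 * Q := by rw [hQ]; ring
  have e3 : 3 ^ (m + 3) = 27 * Q := by rw [hQ]; ring
  have e4 : 3 ^ (m + 4) = 81 * Q := by rw [hQ]; ring
  have e5 : 3 ^ (m + 5) = 243 * Q := by rw [hQ]; ring
  have e6 : 3 ^ (m + 6) = 729 * Q := by rw [hQ]; ring
  have e7 : 3 ^ (m + 7) = 2187 * Q := by rw [hQ]; ring
  have e0 : 3 ^ m = Q := hQ.symm
  rw [e6] at hlo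
  rw [e7] at hhi
  have h2 : N % 2 = m % 2 ∨ N % 2 = (m + 1) % 2 := by omega
  have h3 : N % 3 = 0 ∨ N % 3 = 1 ∨ N % 3 = 2 := by omega
  rcases h2 with h2 | h2 <;> rcases h3 with h3 | h3 | h3
  · by_cases hc0 : 1 * N < 926 * Q
    · obtain ⟨M, hM⟩ : ∃ M, N = 0 + 0 + 0 + 3 * M + 2 * (243 * Q) + 2 * (81 * Q) + 2 * (9 * Q) :=
        ⟨(N - (0 + 666 * Q)) / 3, by omega⟩
      have hR := p13 (m + 1) (by omega) M (by omega) (by rw [e1]; omega) (by rw [e1]; omega)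
      exact Rep_step' hR (u := 0) (v := 0) (w := 0) (u' := 2) (v' := 2) (w' := 2)
        rfl rfl rfl e5 e4 e2 hM (by norm_num) (by norm_num) (by norm_num)
    by_cases hc1 : 1 * N < 1394 * Q
    · obtain ⟨M, hM⟩ : ∃ M, N = 1 + 1 + 1 + 3 * M + 1 * (729 * Q) + 1 * (81 * Q) + 1 * (27 * Q) :=
        ⟨(N - (3 + 837 * Q)) / 3, by omega⟩
      have hR := p23 (m + 2) (by omega) M (by omega) (by rw [e2]; omega) (by rw [e2]; omega)
      exact Rep_step' hR (u := 1) (v := 1) (w := 1) (u' := 1) (v' := 1) (w' := 1)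
        rfl rfl rfl e6 e4 e3 hM (by norm_num) (by norm_num) (by norm_num)
    by_cases hc2 : 1 * N < 1860 * Q
    · obtain ⟨M, hM⟩ : ∃ M, N = 1 + 1 + 1 + 3 * M + 1 * (729 * Q) + 1 * (243 * Q) + 1 * (81 * Q) :=
        ⟨(N - (3 + 1053 * Q)) / 3, by omega⟩
      have hR := p12 (m + 3) (by omega) M (by omega) (by rw [e3]; omega) (by rw [e3]; omega)
      exact Rep_step' hR (u := 1) (v := 1) (w := 1) (u' := 1) (v' := 1) (w' := 1)
        rfl rfl rfl e6 e5 e4 hM (by norm_num) (by norm_num) (by norm_num)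
    obtain ⟨M, hM⟩ : ∃ M, N = 0 + 0 + 0 + 3 * M + 2 * (729 * Q) + 2 * (81 * Q) + 2 * (27 * Q) :=
      ⟨(N - (0 + 1674 * Q)) / 3, by omega⟩
    have hR := p23 (m + 2) (by omega) M (by omega) (by rw [e2]; omega) (by rw [e2]; omega)
    exact Rep_step' hR (u := 0) (v := 0) (w := 0) (u' := 2) (v' := 2) (w' := 2)
      rfl rfl rfl e6 e4 e3 hM (by norm_num) (by norm_num) (by norm_num)
  · by_cases hc0 : 1 * N < 976 * Q
    · obtain ⟨M, hM⟩ : ∃ M, N = 0 + 0 + 1 + 3 * M + 2 * (243 * Q) + 2 * (81 * Q) + 1 * (9 * Q) :=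
        ⟨(N - (1 + 657 * Q)) / 3, by omega⟩
      have hR := p13 (m + 1) (by omega) M (by omega) (by rw [e1]; omega) (by rw [e1]; omega)
      exact Rep_step' hR (u := 0) (v := 0) (w := 1) (u' := 2) (v' := 2) (w' := 1)
        rfl rfl rfl e5 e4 e2 hM (by norm_num) (by norm_num) (by norm_num)
    by_cases hc1 : 1 * N < 1714 * Q
    · obtain ⟨M, hM⟩ : ∃ M, N = 1 + 0 + 0 + 3 * M + 1 * (729 * Q) + 2 * (81 * Q) + 2 * (27 * Q) :=
        ⟨(N - (1 + 945 * Q)) / 3, by omega⟩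
      have hR := p23 (m + 2) (by omega) M (by omega) (by rw [e2]; omega) (by rw [e2]; omega)
      exact Rep_step' hR (u := 1) (v := 0) (w := 0) (u' := 1) (v' := 2) (w' := 2)
        rfl rfl rfl e6 e4 e3 hM (by norm_num) (by norm_num) (by norm_num)
    obtain ⟨M, hM⟩ : ∃ M, N = 0 + 0 + 1 + 3 * M + 2 * (729 * Q) + 2 * (81 * Q) + 1 * (27 * Q) :=
      ⟨(N - (1 + 1647 * Q)) / 3, by omega⟩
    have hR := p23 (m + 2) (by omega) M (by omega) (by rw [e2]; omega) (by rw [e2]; omega)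
    exact Rep_step' hR (u := 0) (v := 0) (w := 1) (u' := 2) (v' := 2) (w' := 1)
      rfl rfl rfl e6 e4 e3 hM (by norm_num) (by norm_num) (by norm_num)
  · by_cases hc0 : 1 * N < 895 * Q
    · obtain ⟨M, hM⟩ : ∃ M, N = 0 + 1 + 1 + 3 * M + 2 * (243 * Q) + 1 * (81 * Q) + 1 * (9 * Q) :=
        ⟨(N - (2 + 576 * Q)) / 3, by omega⟩
      have hR := p13 (m + 1) (by omega) M (by omega) (by rw [e1]; omega) (by rw [e1]; omega)
      exact Rep_step' hR (u := 0) (v := 1) (w := 1) (u' := 2) (v' := 1) (w' := 1)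
        rfl rfl rfl e5 e4 e2 hM (by norm_num) (by norm_num) (by norm_num)
    by_cases hc1 : 1 * N < 1634 * Q
    · obtain ⟨M, hM⟩ : ∃ M, N = 1 + 1 + 0 + 3 * M + 1 * (729 * Q) + 1 * (81 * Q) + 2 * (27 * Q) :=
        ⟨(N - (2 + 864 * Q)) / 3, by omega⟩
      have hR := p23 (m + 2) (by omega) M (by omega) (by rw [e2]; omega) (by rw [e2]; omega)
      exact Rep_step' hR (u := 1) (v := 1) (w := 0) (u' := 1) (v' := 1) (w' := 2)
        rfl rfl rfl e6 e4 e3 hM (by norm_num) (by norm_num) (by norm_num)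
    obtain ⟨M, hM⟩ : ∃ M, N = 0 + 1 + 1 + 3 * M + 2 * (729 * Q) + 1 * (81 * Q) + 1 * (27 * Q) :=
      ⟨(N - (2 + 1566 * Q)) / 3, by omega⟩
    have hR := p23 (m + 2) (by omega) M (by omega) (by rw [e2]; omega) (by rw [e2]; omega)
    exact Rep_step' hR (u := 0) (v := 1) (w := 1) (u' := 2) (v' := 1) (w' := 1)
      rfl rfl rfl e6 e4 e3 hM (by norm_num) (by norm_num) (by norm_num)
  · by_cases hc0 : 1 * N < 802 * Q
    · obtain ⟨M, hM⟩ : ∃ M, N = 0 + 0 + 0 + 3 * M + 2 * (243 * Q) + 2 * (27 * Q) + 2 * (9 * Q) :=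
        ⟨(N - (0 + 558 * Q)) / 3, by omega⟩
      have hR := p23 (m + 1) (by omega) M (by omega) (by rw [e1]; omega) (by rw [e1]; omega)
      exact Rep_step' hR (u := 0) (v := 0) (w := 0) (u' := 2) (v' := 2) (w' := 2)
        rfl rfl rfl e5 e3 e2 hM (by norm_num) (by norm_num) (by norm_num)
    by_cases hc1 : 1 * N < 1266 * Q
    · obtain ⟨M, hM⟩ : ∃ M, N = 1 + 1 + 1 + 3 * M + 1 * (729 * Q) + 1 * (27 * Q) + 1 * (3 * Q) :=
        ⟨(N - (3 + 759 * Q)) / 3, by omega⟩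
      have hR := p35 (m) (by omega) M (by omega) (by rw [e0]; omega) (by rw [e0]; omega)
      exact Rep_step' hR (u := 1) (v := 1) (w := 1) (u' := 1) (v' := 1) (w' := 1)
        rfl rfl rfl e6 e3 e1 hM (by norm_num) (by norm_num) (by norm_num)
    by_cases hc2 : 1 * N < 1749 * Q
    · obtain ⟨M, hM⟩ : ∃ M, N = 1 + 1 + 1 + 3 * M + 1 * (729 * Q) + 1 * (243 * Q) + 1 * (27 * Q) :=
        ⟨(N - (3 + 999 * Q)) / 3, by omega⟩
      have hR := p13 (m + 2) (by omega) M (by omega) (by rw [e2]; omega) (by rw [e2]; omega)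
      exact Rep_step' hR (u := 1) (v := 1) (w := 1) (u' := 1) (v' := 1) (w' := 1)
        rfl rfl rfl e6 e5 e3 hM (by norm_num) (by norm_num) (by norm_num)
    obtain ⟨M, hM⟩ : ∃ M, N = 0 + 0 + 0 + 3 * M + 2 * (729 * Q) + 2 * (27 * Q) + 2 * (3 * Q) :=
      ⟨(N - (0 + 1518 * Q)) / 3, by omega⟩
    have hR := p35 (m) (by omega) M (by omega) (by rw [e0]; omega) (by rw [e0]; omega)
    exact Rep_step' hR (u := 0) (v := 0) (w := 0) (u' := 2) (v' := 2) (w' := 2)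
      rfl rfl rfl e6 e3 e1 hM (by norm_num) (by norm_num) (by norm_num)
  · by_cases hc0 : 1 * N < 902 * Q
    · obtain ⟨M, hM⟩ : ∃ M, N = 0 + 0 + 1 + 3 * M + 2 * (243 * Q) + 2 * (81 * Q) + 1 * (27 * Q) :=
        ⟨(N - (1 + 675 * Q)) / 3, by omega⟩
      have hR := p12 (m + 2) (by omega) M (by omega) (by rw [e2]; omega) (by rw [e2]; omega)
      exact Rep_step' hR (u := 0) (v := 0) (w := 1) (u' := 2) (v' := 2) (w' := 1)
        rfl rfl rfl e5 e4 e3 hM (by norm_num) (by norm_num) (by norm_num)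
    by_cases hc1 : 1 * N < 1416 * Q
    · obtain ⟨M, hM⟩ : ∃ M, N = 1 + 0 + 0 + 3 * M + 1 * (729 * Q) + 2 * (27 * Q) + 2 * (3 * Q) :=
        ⟨(N - (1 + 789 * Q)) / 3, by omega⟩
      have hR := p35 (m) (by omega) M (by omega) (by rw [e0]; omega) (by rw [e0]; omega)
      exact Rep_step' hR (u := 1) (v := 0) (w := 0) (u' := 1) (v' := 2) (w' := 2)
        rfl rfl rfl e6 e3 e1 hM (by norm_num) (by norm_num) (by norm_num)
    obtain ⟨M, hM⟩ : ∃ M, N = 1 + 0 + 0 + 3 * M + 1 * (729 * Q) + 2 * (243 * Q) + 2 * (27 * Q) :=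
      ⟨(N - (1 + 1269 * Q)) / 3, by omega⟩
    have hR := p13 (m + 2) (by omega) M (by omega) (by rw [e2]; omega) (by rw [e2]; omega)
    exact Rep_step' hR (u := 1) (v := 0) (w := 0) (u' := 1) (v' := 2) (w' := 2)
      rfl rfl rfl e6 e5 e3 hM (by norm_num) (by norm_num) (by norm_num)
  · by_cases hc0 : 1 * N < 860 * Q
    · obtain ⟨M, hM⟩ : ∃ M, N = 0 + 1 + 1 + 3 * M + 2 * (243 * Q) + 1 * (81 * Q) + 1 * (27 * Q) :=
        ⟨(N - (2 + 594 * Q)) / 3, by omega⟩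
      have hR := p12 (m + 2) (by omega) M (by omega) (by rw [e2]; omega) (by rw [e2]; omega)
      exact Rep_step' hR (u := 0) (v := 1) (w := 1) (u' := 2) (v' := 1) (w' := 1)
        rfl rfl rfl e5 e4 e3 hM (by norm_num) (by norm_num) (by norm_num)
    by_cases hc1 : 1 * N < 1515 * Q
    · obtain ⟨M, hM⟩ : ∃ M, N = 1 + 0 + 1 + 3 * M + 1 * (729 * Q) + 2 * (27 * Q) + 1 * (3 * Q) :=
        ⟨(N - (2 + 786 * Q)) / 3, by omega⟩
      have hR := p35 (m) (by omega) M (by omega) (by rw [e0]; omega) (by rw [e0]; omega)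
      exact Rep_step' hR (u := 1) (v := 0) (w := 1) (u' := 1) (v' := 2) (w' := 1)
        rfl rfl rfl e6 e3 e1 hM (by norm_num) (by norm_num) (by norm_num)
    obtain ⟨M, hM⟩ : ∃ M, N = 0 + 1 + 1 + 3 * M + 2 * (729 * Q) + 1 * (27 * Q) + 1 * (3 * Q) :=
      ⟨(N - (2 + 1488 * Q)) / 3, by omega⟩
    have hR := p35 (m) (by omega) M (by omega) (by rw [e0]; omega) (by rw [e0]; omega)
    exact Rep_step' hR (u := 0) (v := 1) (w := 1) (u' := 2) (v' := 1) (w' := 1)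
      rfl rfl rfl e6 e3 e1 hM (by norm_num) (by norm_num) (by norm_num)

end Pool.Agent.X9.AP
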